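import Pool.Agent.Helper66.SB.Goals

/-!
# Project SB (MP_d3128a_ag), packet BD
-/

set_option autoImplicit false

open Module MvPolynomial

noncomputable section

namespace Pool.Agent.Helper22.SB

open Pool.Agent.Helper66.SB Helper18.Shgh

/-- Chain rule along the branch. -/
theorem chain (R : Fin 2 → ℂ) (φ : Polynomial ℂ) (g : R2) :
    Polynomial.derivative (br R φ g) =
      br R φ (pderiv 0 g) + Polynomial.derivative φ * br R φ (pderiv 1 g) := by
  induction g using MvPolynomial.induction_on with
  | C a =>
    have h : br R φ (C a) = Polynomial.C a := by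
      unfold br
      rw [aeval_C]
      rfl
    rw [h]
    simp
  | add p q hp hq =>
    rw [map_add, Polynomial.derivative_add, hp, hq, map_add, map_add, map_add, map_add]
    ring
  | mul_X p i hp =>
    have h0 : br R φ (X 0) = Polynomial.C (R 0) + Polynomial.X := by
      unfold br
      rw [aeval_X]
      rfl
    have h1 : br R φ (X 1) = Polynomial.C (R 1) + φ := by
      unfold br
      rw [aeval_X]
      rfl
    rw [map_mul, Polynomial.derivative_mul, hp, Derivation.leibniz, Derivation.leibniz]
    simp only [smul_eq_mul, map_add, map_mul]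
    fin_cases i
    · simp only [Fin.zero_eta, h0, pderiv_X_self, map_one, Polynomial.derivative_add,
        Polynomial.derivative_C, Polynomial.derivative_X, zero_add,
        pderiv_X_of_ne (show (0 : Fin 2) ≠ 1 by decide), map_zero]
      ring
    · simp only [Fin.mk_one, h1, pderiv_X_self, map_one, Polynomial.derivative_add,
        Polynomial.derivative_C, zero_add,
        pderiv_X_of_ne (show (1 : Fin 2) ≠ 0 by decide), map_zero]
      ring

theorem gBD : G_BD := by
  intro F g R φ M hM
  have h1 : Polynomial.X ^ (M - 1) ∣ Polynomial.derivative (br R φ F) := by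
    obtain ⟨q, hq⟩ := hM
    rw [hq, Polynomial.derivative_mul, Polynomial.derivative_X_pow]
    refine dvd_add ?_ ?_
    · exact (Dvd.intro_left _ rfl).mul_right _
    · exact (pow_dvd_pow _ (Nat.sub_le M 1)).mul_right _
  have h2 : br R φ (dl F g) - br R φ (pderiv 1 F) * Polynomial.derivative (br R φ g) =
      -(br R φ (pderiv 1 g)) * Polynomial.derivative (br R φ F) := by
    have h3 : dl F g = pderiv 1 F * pderiv 0 g - pderiv 0 F * pderiv 1 g := rfl
    rw [h3, chain, chain, map_sub, map_mul, map_mul]
    ring
  rw [h2]
  exact h1.mul_left _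

end Pool.Agent.Helper22.SB
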